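import Pool.Agent.helper19.FK.Spec

/-!
# Row fk:TRH (MP_bf63dc_nt): the star recursion with maxima
-/

set_option autoImplicit false

namespace Pool.Agent.FK

open Finset Pool.Agent.AT
open Pool.Agent.HF (cz Om)

open Classical in
/-- the class of `π` of level `t` -/
noncomputable def TRH_cl {k T : ℕ} (t : ℕ) (π : Pool.Agent.SK.Path k T) : Finset (Pool.Agent.SK.Path k T) :=
  univ.filter fun π' => ∀ l : Fin T, t ≤ (l : ℕ) → π' l = π l

theorem TRH_mem {k T : ℕ} (t : ℕ) (π π' : Pool.Agent.SK.Path k T) : π' ∈ TRH_cl t π ↔ ∀ l : Fin T, t ≤ (l : ℕ) → π' l = π l := by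
  unfold TRH_cl
  rw [mem_filter]
  exact ⟨fun h => h.2, fun h => ⟨mem_univ _, h⟩⟩

theorem TRH_self {k T : ℕ} (t : ℕ) (π : Pool.Agent.SK.Path k T) : π ∈ TRH_cl t π := (TRH_mem t π π).2 fun _ _ => rfl

/-- the maximum over the class -/
noncomputable def TRH_A {k T : ℕ} (M : Pool.Agent.SK.Path k T × Fin k → ℝ) (t : ℕ) (π : Pool.Agent.SK.Path k T) (i : Fin k) : ℝ :=
  (TRH_cl t π).sup' ⟨π, TRH_self t π⟩ fun π' => M (π', i)

theorem TRH_le {k T : ℕ} (M : Pool.Agent.SK.Path k T × Fin k → ℝ) (t : ℕ) (π π' : Pool.Agent.SK.Path k T) (i : Fin k)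
    (h : ∀ l : Fin T, t ≤ (l : ℕ) → π' l = π l) : M (π', i) ≤ TRH_A M t π i := by
  unfold TRH_A
  exact Finset.le_sup' (fun π' => M (π', i)) ((TRH_mem t π π').2 h)

theorem TRH_ex {k T : ℕ} (M : Pool.Agent.SK.Path k T × Fin k → ℝ) (t : ℕ) (π : Pool.Agent.SK.Path k T) (i : Fin k) :
    ∃ π' : Pool.Agent.SK.Path k T, (∀ l : Fin T, t ≤ (l : ℕ) → π' l = π l) ∧ TRH_A M t π i = M (π', i) := by
  obtain ⟨π', h1, h2⟩ := Finset.exists_mem_eq_sup' ⟨π, TRH_self t π⟩ fun π' => M (π', i)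
  exact ⟨π', (TRH_mem t π π').1 h1, h2⟩

theorem TRH_mono {k T : ℕ} (M : Pool.Agent.SK.Path k T × Fin k → ℝ) (t : ℕ) (π : Pool.Agent.SK.Path k T) (i : Fin k) :
    TRH_A M t π i ≤ TRH_A M (t + 1) π i := by
  obtain ⟨π', h1, h2⟩ := TRH_ex M t π i
  rw [h2]
  exact TRH_le M (t + 1) π π' i fun l hl => h1 l (by omega)

theorem TRH_congr {k T : ℕ} (M : Pool.Agent.SK.Path k T × Fin k → ℝ) (t : ℕ) (π ρ : Pool.Agent.SK.Path k T) (i : Fin k)
    (h : ∀ l : Fin T, t ≤ (l : ℕ) → π l = ρ l) : TRH_A M t π i ≤ TRH_A M t ρ i := by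
  obtain ⟨π', h1, h2⟩ := TRH_ex M t π i
  rw [h2]
  exact TRH_le M t ρ π' i fun l hl => (h1 l hl).trans (h l hl)

theorem TRH_upd {k T : ℕ} (t : Fin T) (f : Pool.Agent.SK.Path k T → ℝ) :
    ∑ π : Pool.Agent.SK.Path k T, ∑ d : Option (Fin k × Fin k), f (Function.update π t d) = ((k * k + 1 : ℕ) : ℝ) * ∑ π, f π := by
  classical
  have h1 : Function.Involutive (fun x : Pool.Agent.SK.Path k T × Option (Fin k × Fin k) => (Function.update x.1 t x.2, x.1 t)) := by
    rintro ⟨π, d⟩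
    simp
  have h2 : ∑ x : Pool.Agent.SK.Path k T × Option (Fin k × Fin k), f (Function.update x.1 t x.2) = ∑ x : Pool.Agent.SK.Path k T × Option (Fin k × Fin k), f x.1 :=
    Equiv.sum_comp h1.toPerm (fun x : Pool.Agent.SK.Path k T × Option (Fin k × Fin k) => f x.1)
  rw [Fintype.sum_prod_type, Fintype.sum_prod_type] at h2
  dsimp only at h2
  rw [h2]
  simp only [sum_const, card_univ, nsmul_eq_mul, Fintype.card_option, Fintype.card_prod, Fintype.card_fin]
  rw [mul_sum]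

theorem TRH : TRH_stmt := by
  classical
  intro k T θ e V Bad M hT hM hB hV
  obtain ⟨P, hP⟩ : ∃ P : ℕ, P = (k * k + 1) ^ T := ⟨_, rfl⟩
  have hcard : Fintype.card (Pool.Agent.SK.Path k T) = P := by rw [hP]; exact Pool.Agent.SK.card_path k T
  have hA0 : ∀ t π i, 0 ≤ TRH_A M t π i := by
    intro t π i
    exact (hM (π, i)).1.trans (TRH_le M t π π i fun _ _ => rfl)
  have hA1 : ∀ t π i, TRH_A M t π i ≤ 1 := by
    intro t π i
    obtain ⟨π', -, h2⟩ := TRH_ex M t π i
    rw [h2]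
    exact (hM _).2
  obtain ⟨Φ, hΦ⟩ : ∃ Φ : ℕ → ℝ, Φ = fun t => ∑ π : Pool.Agent.SK.Path k T, ∑ i : Fin k, TRH_A M t π i := ⟨_, rfl⟩
  have hΦm : Monotone Φ := by
    refine monotone_nat_of_le_succ fun t => ?_
    rw [hΦ]
    exact Finset.sum_le_sum fun π _ => Finset.sum_le_sum fun i _ => TRH_mono M t π i
  have hΦ0 : ∀ t, 0 ≤ Φ t := by
    intro t
    rw [hΦ]
    exact Finset.sum_nonneg fun π _ => Finset.sum_nonneg fun i _ => hA0 t π i
  have hΦk : ∀ t, Φ t ≤ P * k := by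
    intro t
    rw [hΦ]
    dsimp only
    calc ∑ π : Pool.Agent.SK.Path k T, ∑ i : Fin k, TRH_A M t π i ≤ ∑ _π : Pool.Agent.SK.Path k T, ∑ _i : Fin k, (1 : ℝ) :=
          Finset.sum_le_sum fun π _ => Finset.sum_le_sum fun i _ => hA1 t π i
      _ = P * k := by simp [← hcard]
  have hTpos : (0 : ℝ) < T := by exact_mod_cast hT
  obtain ⟨t, htT, ht⟩ : ∃ t, t < T ∧ Φ (t + 1) - Φ t ≤ P * k / T := by
    by_contra hcon
    push Not at hcon
    have h1 : ∑ t ∈ range T, (P * k / T : ℝ) < ∑ t ∈ range T, (Φ (t + 1) - Φ t) := by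
      refine Finset.sum_lt_sum_of_nonempty ⟨0, mem_range.2 (by omega)⟩ fun t ht => ?_
      exact hcon t (mem_range.1 ht)
    rw [Finset.sum_range_sub, sum_const, card_range, nsmul_eq_mul] at h1
    have h2 : (T : ℝ) * (P * k / T) = P * k := by field_simp
    rw [h2] at h1
    have h3 := hΦk T
    have h4 := hΦ0 0
    linarith
  obtain ⟨τ, hτ⟩ : ∃ τ : Fin T, τ = ⟨t, htT⟩ := ⟨_, rfl⟩
  have hτt : (τ : ℕ) = t := by rw [hτ]
  -- the step
  have hup : ∀ (π : Pool.Agent.SK.Path k T) (d : Option (Fin k × Fin k)) (i : Fin k), TRH_A M t (Function.update π τ d) i ≤ TRH_A M (t + 1) π i := by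
    intro π d i
    refine (TRH_mono M t _ i).trans (TRH_congr M (t + 1) _ _ i fun l hl => ?_)
    rw [Function.update_of_ne]
    intro h
    rw [h, hτt] at hl
    omega
  obtain ⟨x, hx⟩ : ∃ x : Pool.Agent.SK.Path k T → Fin k → ℝ, x = fun π i => (univ : Finset (Option (Fin k × Fin k))).inf' ⟨none, mem_univ _⟩ fun d => TRH_A M t (Function.update π τ d) i := ⟨_, rfl⟩
  have hxle : ∀ π i d, x π i ≤ TRH_A M t (Function.update π τ d) i := by
    intro π i d
    rw [hx]
    exact Finset.inf'_le _ (mem_univ d)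
  have hxex : ∀ π i, ∃ d, x π i = TRH_A M t (Function.update π τ d) i := by
    intro π i
    rw [hx]
    obtain ⟨d, -, hd⟩ := Finset.exists_mem_eq_inf' (s := (univ : Finset (Option (Fin k × Fin k)))) ⟨none, mem_univ _⟩ fun d => TRH_A M t (Function.update π τ d) i
    exact ⟨d, hd⟩
  have hxV : ∀ π, ∑ i, x π i ≤ V := by
    intro π
    refine hV (x π) (fun i => ?_) fun i j hij hi hj => ?_
    · obtain ⟨d, hd⟩ := hxex π i
      rw [hd]
      exact ⟨hA0 _ _ _, hA1 _ _ _⟩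
    · obtain ⟨ρ, r1, r2⟩ := TRH_ex M t (Function.update π τ (some (i, j))) i
      obtain ⟨ρ', s1, s2⟩ := TRH_ex M t (Function.update π τ none) j
      have h1 := hxle π i (some (i, j))
      have h2 := hxle π j none
      rw [r2] at h1
      rw [s2] at h2
      have h3 := hB τ i j ρ ρ' hij (fun l' hl' => by
        have hne : l' ≠ τ := by
          intro h
          rw [h] at hl'
          exact lt_irrefl _ hl'
        rw [r1 l' (by omega), s1 l' (by omega), Function.update_of_ne hne, Function.update_of_ne hne])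
        (by rw [r1 τ (by omega), Function.update_self]) (by rw [s1 τ (by omega), Function.update_self]) (hi.trans h1) (hj.trans h2)
      linarith
  have hstep : ∀ π i, TRH_A M (t + 1) π i ≤ x π i + ∑ d : Option (Fin k × Fin k), (TRH_A M (t + 1) π i - TRH_A M t (Function.update π τ d) i) := by
    intro π i
    obtain ⟨d, hd⟩ := hxex π i
    have h1 : TRH_A M (t + 1) π i - TRH_A M t (Function.update π τ d) i ≤
        ∑ d : Option (Fin k × Fin k), (TRH_A M (t + 1) π i - TRH_A M t (Function.update π τ d) i) :=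
      Finset.single_le_sum (f := fun d : Option (Fin k × Fin k) => TRH_A M (t + 1) π i - TRH_A M t (Function.update π τ d) i)
        (fun d _ => sub_nonneg.2 (hup π d i)) (mem_univ d)
    linarith
  have hsum : Φ (t + 1) ≤ P * V + ((k * k + 1 : ℕ) : ℝ) * (Φ (t + 1) - Φ t) := by
    have h1 : Φ (t + 1) ≤ ∑ π : Pool.Agent.SK.Path k T, ∑ i : Fin k,
        (x π i + ∑ d : Option (Fin k × Fin k), (TRH_A M (t + 1) π i - TRH_A M t (Function.update π τ d) i)) := by
      rw [hΦ]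
      exact Finset.sum_le_sum fun π _ => Finset.sum_le_sum fun i _ => hstep π i
    have h2 : ∑ π : Pool.Agent.SK.Path k T, ∑ i : Fin k, x π i ≤ P * V := by
      calc ∑ π : Pool.Agent.SK.Path k T, ∑ i : Fin k, x π i ≤ ∑ _π : Pool.Agent.SK.Path k T, V := Finset.sum_le_sum fun π _ => hxV π
        _ = P * V := by rw [sum_const, card_univ, hcard, nsmul_eq_mul]
    have h3 : ∑ π : Pool.Agent.SK.Path k T, ∑ i : Fin k, ∑ d : Option (Fin k × Fin k), (TRH_A M (t + 1) π i - TRH_A M t (Function.update π τ d) i) =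
        ((k * k + 1 : ℕ) : ℝ) * (Φ (t + 1) - Φ t) := by
      have h4 : ∑ π : Pool.Agent.SK.Path k T, ∑ i : Fin k, ∑ d : Option (Fin k × Fin k), TRH_A M t (Function.update π τ d) i = ((k * k + 1 : ℕ) : ℝ) * Φ t := by
        rw [hΦ]
        dsimp only
        rw [← TRH_upd τ fun π => ∑ i : Fin k, TRH_A M t π i]
        exact Finset.sum_congr rfl fun π _ => Finset.sum_comm
      have h5 : ∑ π : Pool.Agent.SK.Path k T, ∑ i : Fin k, ∑ _d : Option (Fin k × Fin k), TRH_A M (t + 1) π i = ((k * k + 1 : ℕ) : ℝ) * Φ (t + 1) := by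
        rw [hΦ]
        dsimp only
        rw [mul_sum]
        refine Finset.sum_congr rfl fun π _ => ?_
        rw [mul_sum]
        refine Finset.sum_congr rfl fun i _ => ?_
        rw [sum_const, card_univ, Fintype.card_option, Fintype.card_prod, Fintype.card_fin, nsmul_eq_mul]
      rw [mul_sub, ← h5, ← h4, ← Finset.sum_sub_distrib]
      refine Finset.sum_congr rfl fun π _ => ?_
      rw [← Finset.sum_sub_distrib]
      refine Finset.sum_congr rfl fun i _ => ?_
      rw [← Finset.sum_sub_distrib]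
    have h4 : ∑ π : Pool.Agent.SK.Path k T, ∑ i : Fin k,
        (x π i + ∑ d : Option (Fin k × Fin k), (TRH_A M (t + 1) π i - TRH_A M t (Function.update π τ d) i)) =
        ∑ π : Pool.Agent.SK.Path k T, ∑ i : Fin k, x π i +
        ∑ π : Pool.Agent.SK.Path k T, ∑ i : Fin k, ∑ d : Option (Fin k × Fin k), (TRH_A M (t + 1) π i - TRH_A M t (Function.update π τ d) i) := by
      rw [← Finset.sum_add_distrib]
      refine Finset.sum_congr rfl fun π _ => ?_
      rw [← Finset.sum_add_distrib]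
    rw [h4, h3] at h1
    linarith
  have hM0 : ∑ z, M z ≤ Φ 0 := by
    rw [hΦ]
    dsimp only
    rw [Fintype.sum_prod_type]
    exact Finset.sum_le_sum fun π _ => Finset.sum_le_sum fun i _ => TRH_le M 0 π π i fun _ _ => rfl
  have hK0 : (0 : ℝ) ≤ ((k * k + 1 : ℕ) : ℝ) := Nat.cast_nonneg _
  have h5 : (P : ℝ) = ((k * k + 1 : ℕ) : ℝ) ^ T := by rw [hP]; push_cast; ring
  rw [← h5]
  calc ∑ z, M z ≤ Φ 0 := hM0
    _ ≤ Φ (t + 1) := hΦm (Nat.zero_le _)
    _ ≤ P * V + ((k * k + 1 : ℕ) : ℝ) * (Φ (t + 1) - Φ t) := hsum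
    _ ≤ P * V + ((k * k + 1 : ℕ) : ℝ) * (P * k / T) := by
        have := mul_le_mul_of_nonneg_left ht hK0
        linarith
    _ = (V + ((k * k + 1 : ℕ) : ℝ) * k / T) * P := by ring

end Pool.Agent.FK
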